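import Pool.Agent.H207.BT.Stm5
import Pool.Agent.H211.HY.AsmC0
import Pool.Agent.H211.HY.AsmC

/-! Close passages in the concrete setting, general moving goals -/

set_option autoImplicit false

open Topology Filter Metric Set MeasureTheory Polynomial

namespace Pool.Agent.H239.BT207

open Pool.Agent.H790R3.RB Pool.Agent.H211.HY Pool.Agent.H207.BT

/-- `Rch` passes to noncritical preimages. -/
theorem rch_pre {d : ℕ} (hd : 2 ≤ d) {x : CV d} (hx : ND x) {g p p' : ℂ × ℂ} (hp : p ≠ 0)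
    (hp' : p' ≠ 0) (hw : wr x p ≠ 0) (hc : cr (hF x p) p' = 0) (h : Rch x g p') :
    Rch x g p := by
  obtain ⟨n, hn, hg⟩ := h
  have hFp : hF x p ≠ 0 := fun h0 => hp (hx p h0)
  refine ⟨n + 1, ?_, ?_⟩
  · intro j hj
    rcases j with _ | j
    · exact hw
    · rw [Function.iterate_succ_apply]
      intro h0
      have h1 : cr ((hF x)^[j] p') ((hF x)^[j] (hF x p)) = 0 := by
        have h2 := cr_iter x j hFp hp' hc
        rw [cr_comm, h2, neg_zero]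
      exact hn j (by omega) (wr_of_par hd x (hx.iter_ne j hp') (hx.iter_ne j hFp) h1 h0)
  · rw [Function.iterate_succ_apply]
    exact cr_trans (hx.iter_ne n hp') (cr_iter x n hFp hp' hc) hg

theorem cho_nonneg (p q : ℂ × ℂ) : 0 ≤ cho p q := by
  unfold cho
  positivity

theorem t_CLOSEG (h1 : Pool.Agent.H207.BT.S_DXM) (h2 : Pool.Agent.H207.BT.S_ROOT) :
    Pool.Agent.H207.BT.S_CLOSEG := by
  intro d k x₀ c₀ m X c ρ' C K₁ μ κ xx H
  obtain ⟨K₀, hK₀, hD⟩ := h1 d k x₀ c₀ m H.hd H.nd H.fac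
  obtain ⟨η₀, hη₀, hηρ, B₀, hB₀, hR⟩ := h2 d k x₀ c₀ m X c ρ' H.hd H.nd H.nrm.1 H.fac H.fami
  refine ⟨min η₀ 1, lt_min hη₀ one_pos, max B₀ K₀, le_max_of_le_left hB₀, ?_⟩
  intro γ i n hγ hxn
  obtain ⟨l, hl⟩ := H.dis i n
  have hp : qo x₀ (c₀ i) (n + 1) ≠ 0 := qo_ne H.nd _ _
  have hx0 : 0 < xx i n := ((H.good i).xx n).1
  have hcn := cho_nonneg (qo x₀ (c₀ i) (n + 1)) (c₀ l, 1)
  have hB1 : B₀ ≤ max B₀ K₀ := le_max_left _ _
  have hB2 : K₀ ≤ max B₀ K₀ := le_max_right _ _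
  have hBpos : 1 ≤ max B₀ K₀ := hB₀.trans hB1
  refine ⟨l, ?_, ?_⟩
  · have h3 : DD (cf x₀ X (c₀ i)) (cz x₀ (c₀ i)) (n + 1) =
        DD (cf x₀ X (c₀ i)) (cz x₀ (c₀ i)) n *
          deriv (GG x₀ (tau (qo x₀ (c₀ i) (n + 1))) (tau (hF x₀ (qo x₀ (c₀ i) (n + 1)))))
            (zc (qo x₀ (c₀ i) (n + 1))) := by
      unfold DD
      rw [Finset.prod_range_succ]
      congr 1
      have h4 : cf x₀ X (c₀ i) n 0 =
          GG x₀ (tau (qo x₀ (c₀ i) (n + 1))) (tau (hF x₀ (qo x₀ (c₀ i) (n + 1)))) := by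
        funext w
        unfold cf
        rw [H.fami.at0, qo_succ x₀ (c₀ i) (n + 1)]
      rw [h4]
      rfl
    rw [h3, norm_mul]
    have h5 := hD (qo x₀ (c₀ i) (n + 1)) l hp
    have h6 : K₀ * cho (qo x₀ (c₀ i) (n + 1)) (c₀ l, 1) ^ m l ≤
        max B₀ K₀ * xx i n ^ m l :=
      mul_le_mul hB2 (pow_le_pow_left₀ hcn hl _) (pow_nonneg hcn _) (by linarith)
    calc ‖DD (cf x₀ X (c₀ i)) (cz x₀ (c₀ i)) n‖ * ‖deriv (GG x₀ (tau (qo x₀ (c₀ i) (n + 1)))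
          (tau (hF x₀ (qo x₀ (c₀ i) (n + 1))))) (zc (qo x₀ (c₀ i) (n + 1)))‖
        ≤ ‖DD (cf x₀ X (c₀ i)) (cz x₀ (c₀ i)) n‖ * (max B₀ K₀ * xx i n ^ m l) :=
          mul_le_mul_of_nonneg_left (h5.trans h6) (norm_nonneg _)
      _ = max B₀ K₀ * xx i n ^ m l * ‖DD (cf x₀ X (c₀ i)) (cz x₀ (c₀ i)) n‖ := mul_comm _ _
  · intro w y r K hy hyη hyw hr hK hBK hLip hRP
    have hv0 : cv x₀ X (c₀ l) (c l) 0 = cz x₀ (c₀ l) 0 := (H.good l).v0
    have hchoη : cho (qo x₀ (c₀ i) (n + 1)) (c₀ l, 1) ≤ η₀ :=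
      hl.trans (hxn.trans (min_le_left _ _))
    have hKr : 0 < K * r := mul_pos (by linarith) hr
    have hBK0 : B₀ * K * r ≤ y ^ (m l + 1) := by
      refine le_trans ?_ hBK
      rw [mul_assoc, mul_assoc]
      exact mul_le_mul_of_nonneg_right hB1 hKr.le
    obtain ⟨q, hq1, hq2, hq3, hq4⟩ := hR (qo x₀ (c₀ i) (n + 1)) l w y r K hp hchoη hy
      (hyη.trans (min_le_left _ _)) (by rw [hv0]; exact hyw) hr hK hBK0 hLip
    have hrρ : r ≤ ρ' := by
      have h7 : r ≤ max B₀ K₀ * K * r := by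
        have h8 : 1 ≤ max B₀ K₀ * K := by nlinarith
        nlinarith
      have h9 : y ^ (m l + 1) ≤ y := by
        rw [pow_succ]
        have h10 : y ^ m l ≤ 1 := pow_le_one₀ hy.le (hyη.trans (min_le_right _ _))
        nlinarith
      exact h7.trans (hBK.trans (h9.trans ((hyη.trans (min_le_left _ _)).trans hηρ)))
    refine ⟨q, ?_, ?_, ?_, ?_⟩
    · refine hq1.trans ?_
      exact mul_le_mul hB1 (by linarith) (by linarith) (by linarith)
    · exact hq2.trans (mul_le_mul_of_nonneg_right hB1 (norm_nonneg _))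
    · intro s hs s' hs'
      refine (hq3 s hs s' hs').trans ?_
      exact mul_le_mul_of_nonneg_right (mul_le_mul_of_nonneg_right hB1 (by linarith))
        (norm_nonneg _)
    · intro s hs
      have hsρ : s ∈ ball (0 : Fin k → ℂ) ρ' := ball_subset_ball hrρ hs
      obtain ⟨ha, hb⟩ := hq4 s hs
      exact rch_pre H.hd (H.fami.nd s hsρ) (iot_ne _ _) (iot_ne _ _) ha hb (hRP s hs)

end Pool.Agent.H239.BT207
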